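import Mathlib
import Pool.Agent.N546.PN.Stm3

/-!
# Project PW, part LINW: rare properties on a line
-/

set_option autoImplicit false

namespace Pool.Agent.N136.PW

open Finset Filter Topology
open Pool.Agent.N546.PN

open Classical in
theorem linw_ (hpush : S_PUSH) : S_LINW := by
  intro n ι _ _ e Q hHP b i₀ i₁ hi hb η hη
  obtain ⟨C, hC1, hC⟩ := hpush n ι e b i₀ i₁ hi hb
  have hC0 : (0 : ℝ) < C := by exact_mod_cast hC1
  obtain ⟨H₀, hH₀⟩ := hHP (η / (C : ℝ) ^ sz1 e) (by positivity)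
  filter_upwards [eventually_ge_atTop H₀] with H hH
  have h1 := hC H Q
  have h2 := hH₀ (C * H) (hH.trans (Nat.le_mul_of_pos_left _ hC1))
  have h3 : (((2 * (C * H) + 1 : ℕ) : ℝ)) ^ sz1 e ≤ ((C : ℝ) * ((2 * H + 1 : ℕ) : ℝ)) ^ sz1 e := by
    refine pow_le_pow_left₀ (Nat.cast_nonneg _) ?_ _
    have : 2 * (C * H) + 1 ≤ C * (2 * H + 1) := by nlinarith
    exact_mod_cast this
  have hX : (0 : ℝ) < ((2 * H + 1 : ℕ) : ℝ) := by positivity
  have h4 : (((bx1 e (C * H)).filter Q).card : ℝ) ≤ η * ((2 * H + 1 : ℕ) : ℝ) ^ sz1 e := by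
    refine h2.trans ?_
    calc η / (C : ℝ) ^ sz1 e * ((2 * (C * H) + 1 : ℕ) : ℝ) ^ sz1 e
        ≤ η / (C : ℝ) ^ sz1 e * ((C : ℝ) * ((2 * H + 1 : ℕ) : ℝ)) ^ sz1 e := by
          exact mul_le_mul_of_nonneg_left h3 (by positivity)
      _ = η * ((2 * H + 1 : ℕ) : ℝ) ^ sz1 e := by
          rw [mul_pow]
          field_simp
  have h5 : ((((bx n e H).filter (fun c => Q (fun k => line b i₁ (c k)))).card : ℝ)) *
      ((2 * H + 1 : ℕ) : ℝ) ^ sz1 e ≤
      ((2 * H + 1 : ℕ) : ℝ) ^ sz n e * (((bx1 e (C * H)).filter Q).card : ℝ) := by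
    have h1' : (((bx n e H).filter (fun c => Q (fun k => line b i₁ (c k)))).card) *
        (2 * H + 1) ^ sz1 e ≤
        (2 * H + 1) ^ sz n e * (((bx1 e (C * H)).filter Q).card) := by
      convert h1
    exact_mod_cast h1'
  have h6 := h5.trans (mul_le_mul_of_nonneg_left h4 (by positivity))
  have h7 : ((2 * H + 1 : ℕ) : ℝ) ^ sz n e * (η * ((2 * H + 1 : ℕ) : ℝ) ^ sz1 e) =
      (η * ((2 * H + 1 : ℕ) : ℝ) ^ sz n e) * ((2 * H + 1 : ℕ) : ℝ) ^ sz1 e := by ring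
  rw [h7] at h6
  exact le_of_mul_le_mul_right h6 (by positivity)

end Pool.Agent.N136.PW
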